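import Pool.Agent.Lib.MP_34b931_co.H22Final
import Pool.Agent.Lib.MP_34b931_co.H22S
import Pool.Agent.Lib.MP_34b931_co.H22Iso
import Pool.Agent.Lib.MP_34b931_co.H22Fin
import Pool.Agent.Lib.MP_34b931_co.H22Gen
import Pool.Agent.Lib.MP_34b931_co.H22Cell
import Pool.Agent.Lib.MP_34b931_co.H22Pull
import Pool.Agent.Lib.MP_34b931_co.H22Wall
import Pool.Agent.Lib.MP_34b931_co.H22Psd
import Pool.Agent.Lib.MP_34b931_co.H22RigB
import Pool.Agent.Lib.MP_34b931_co.H22Loc
import Pool.Agent.Lib.MP_34b931_co.H22Reg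
import Pool.Agent.Lib.MP_34b931_co.H22Open
import Pool.Agent.Lib.MP_34b931_co.H22Rig
import Pool.Agent.Lib.MP_34b931_co.H22Solve
import Pool.Agent.Lib.MP_34b931_co.H22LL
import Pool.Agent.Lib.MP_34b931_co.H22Vis
import Pool.Agent.Lib.MP_34b931_co.H22Vert
import Pool.Agent.Lib.MP_34b931_co.H22Std
import Pool.Agent.Lib.MP_34b931_co.H22Edge
import Pool.Agent.Lib.MP_34b931_co.H22Conn
import Pool.Agent.Lib.MP_34b931_co.H22Bnd
import Pool.Agent.Lib.MP_34b931_co.H22Arm
import Pool.Agent.Lib.MP_34b931_co.H22Comb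
import Pool.Agent.Lib.MP_34b931_co.H22Step0
import Pool.Agent.Lib.MP_34b931_co.H22TriT
import Pool.Agent.Lib.MP_34b931_co.H22Trunc
import Pool.Agent.Lib.MP_34b931_co.H22Pog

namespace Pool.Agent.Results.MP_34b931_co.GlobalRigid

open Pool.Agent.Lib.MP_34b931_co BallPoly G

/-- Every standard ball-polyhedron is globally rigid with respect to its face angles. -/
theorem result {n m : ℕ} (P : BallPoly n) (hP : P.Standard) (Q : BallPoly m) (hQ : Q.Standard)
    (φ : P.Cell ≃o Q.Cell) (hφ : P.SameFaceAngles Q φ) :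
    ∃ Ψ : E3 ≃ᵢ E3, Ψ '' Q.body = P.body := by
  have psd := stPsd (stPsdGP (stWall stCellSym) (stPull stCellSym stUniq stGW2) stDense) stDense
    stCellSym
  have flip := stFlipAll stMet stType
  have rig := stRig (stRigA psd stL1 stWalk stUniq stCellSym stDense)
    (stRigB psd stL1 stWalk stUniq stCellSym stDense) stGW1 stGW2 stCellSym stDense stType stMirror
    flip
  have inj := stInj rig stMirror
  have vis := stVis stType stMirror
  have s := stS stIso stFin stGenStep stGenDense stMet flip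
    (stGenReg stMet stLoc stGenW stGenB stGenStep) stSReg stMap
    (stClosed stLoc stGenW stGenB stGenStep stMet) (stOpen stType) stNec stDg inj
    (stFull inj stMirror stType) (stSolve1 inj stMirror stType) (stSolve2 inj stMirror stType)
    (stAlex (stTouch vis stType stMirror) (stVert stLL vis stType stMirror)) stType
  have std := stStd stE2 stE3
  have conn := stConn stE2 stE4
  have bnd := stBnd stE1 stE2 stE4
  exact final std (stMatch std stE2) (stOrient conn stE1 stE2)
    (stStep0 stE1 stE2 bnd stArm (stSign stArm) stComb) (stTriT stE1 stE2 conn bnd)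
    (stTrunc stE1 stE3) (stE s) P hP Q hQ φ hφ

end Pool.Agent.Results.MP_34b931_co.GlobalRigid
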