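import Pool.Agent.Lib.MP_34b931_co.H22S
import Pool.Agent.Lib.MP_34b931_co.H22Iso
import Pool.Agent.Lib.MP_34b931_co.H22Fin
import Pool.Agent.Lib.MP_34b931_co.H22Gen
import Pool.Agent.Lib.MP_34b931_co.H22Cell
import Pool.Agent.Lib.MP_34b931_co.H22Pull
import Pool.Agent.Lib.MP_34b931_co.H22Wall
import Pool.Agent.Lib.MP_34b931_co.H22Psd
import Pool.Agent.Lib.MP_34b931_co.H22RigB
import Pool.Agent.Lib.MP_34b931_co.H22Loc
import Pool.Agent.Lib.MP_34b931_co.H22Reg
import Pool.Agent.Lib.MP_34b931_co.H22Open
import Pool.Agent.Lib.MP_34b931_co.H22Rig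
import Pool.Agent.Lib.MP_34b931_co.H22Solve
import Pool.Agent.Lib.MP_34b931_co.H22LL
import Pool.Agent.Lib.MP_34b931_co.H22Vis
import Pool.Agent.Lib.MP_34b931_co.H22Vert

namespace Pool.Agent.Results.MP_34b931_co.SphericalRigid

open Pool.Agent.Lib.MP_34b931_co G

/-- Simple ball-polyhedra of the unit 3-sphere (intersections of congruent caps of angular radius
at most a right angle) of the same oriented combinatorial type, with equal inner products of the
centres of adjacent faces (equal inner dihedral angles), are congruent. -/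
theorem result {ι : Type} [Fintype ι] (τ : ℝ) (h0 : 0 ≤ τ) (h1 : τ < 1) (T : Tri ι)
    (u u' : ι → E4) (hu : SGood τ u T) (hu' : SGood τ u' T)
    (h : ∀ a b, T.adj a b → inner ℝ (u a) (u b) = inner ℝ (u' a) (u' b)) :
    ∃ L : E4 ≃ₗᵢ[ℝ] E4, ∀ i, L (u i) = u' i := by
  have psd := stPsd (stPsdGP (stWall stCellSym) (stPull stCellSym stUniq stGW2) stDense) stDense
    stCellSym
  have flip := stFlipAll stMet stType
  have rig := stRig (stRigA psd stL1 stWalk stUniq stCellSym stDense)
    (stRigB psd stL1 stWalk stUniq stCellSym stDense) stGW1 stGW2 stCellSym stDense stType stMirror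
    flip
  have inj := stInj rig stMirror
  have vis := stVis stType stMirror
  have s := stS stIso stFin stGenStep stGenDense stMet flip
    (stGenReg stMet stLoc stGenW stGenB stGenStep) stSReg stMap
    (stClosed stLoc stGenW stGenB stGenStep stMet) (stOpen stType) stNec stDg inj
    (stFull inj stMirror stType) (stSolve1 inj stMirror stType) (stSolve2 inj stMirror stType)
    (stAlex (stTouch vis stType stMirror) (stVert stLL vis stType stMirror)) stType
  exact S.exists_iso4 u u' (s ι τ u u' T h0 h1 hu hu' h)

end Pool.Agent.Results.MP_34b931_co.SphericalRigid
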